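import Pool.Agent.MP_6a4325_al.H62.Amen

set_option autoImplicit false

namespace Pool.Agent.Results.MP_6a4325_al.Amenable

open Pool.Agent.MP_6a4325_al.H62

/-- For every field `F`, a group `G` with property (Z) over `F` is amenable. -/
theorem result (F G : Type) [Field F] [Group G] (h : PropZ F G) : Amen G :=
  amen_of_propZ F G h

end Pool.Agent.Results.MP_6a4325_al.Amenable
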