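import Pool.Agent.MP_6a4325_al.H62.Char0

set_option autoImplicit false

namespace Pool.Agent.Results.MP_6a4325_al.CharZero

open Pool.Agent.MP_6a4325_al.H62

/-- Amenable, residually finite, every subgroup is finitely generated, and every proper subgroup
lies in a proper subgroup of finite index. -/
def Small (H : Type) [Group H] : Prop :=
  Amen H ∧ Group.ResiduallyFinite H ∧ (∀ B : Subgroup H, B.FG) ∧
    ∀ C : Subgroup H, C ≠ ⊤ → ∃ D : Subgroup H, C ≤ D ∧ D ≠ ⊤ ∧ D.FiniteIndex

/-- All finitely generated subgroups are small, and one of them is not elementary amenable and has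
infinite virtual first Betti number. -/
def Exotic (G : Type) [Group G] : Prop :=
  (∀ H : Subgroup G, H.FG → Small H) ∧ ∃ H : Subgroup G, H.FG ∧ ¬ EA H ∧ ¬ FinVB H

/-- Over a field of characteristic zero, a group that is not exotic has property (Z) if and only if
it is abelian-by-finite. -/
theorem result (F G : Type) [Field F] [CharZero F] [Group G] (h : ¬ Exotic G) :
    PropZ F G ↔ VA G := by
  refine ⟨fun hZ => ?_, Pool.Agent.MP_6a4325_al.H60.conv F G⟩
  have hW := hw_of_propZ F G hZ
  refine va_of_hw sm2 sea sloc G hW fun H hH => ?_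
  by_contra hne
  rw [not_or] at hne
  refine h ⟨fun K hK => ?_, H, (Group.fg_iff_subgroup_fg H).mp hH, hne.1, hne.2⟩
  have hK' : Group.FG K := (Group.fg_iff_subgroup_fg K).mpr hK
  exact ⟨(hW.sub K).amen,
    Group.residuallyFinite_iff_exists_finiteIndex.mpr (sres K hK' (hW.sub K)),
    snoeth K hK' (hW.sub K), seng K hK' (hW.sub K)⟩

end Pool.Agent.Results.MP_6a4325_al.CharZero
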