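import Pool.Agent.MP_6a4325_al.H84.Final3

set_option autoImplicit false

namespace Pool.Agent.Results.MP_6a4325_al.Elementary

open Pool.Agent.MP_6a4325_al.H62

/-- The classification of the pairs `(G, F)` with `G` elementary amenable that have property (Z).
Here `ringExpChar F` is the characteristic of `F` if it is a prime, and `1` in characteristic
zero. -/
theorem result (F G : Type) [Field F] [Group G] (hG : EA G) :
    PropZ F G ↔ LocNoeth G ∧ ∃ (N : Subgroup G) (S : Subgroup N) (_ : S.Normal), N.FiniteIndex ∧
      (∀ s ∈ S, ∃ j : ℕ, s ^ ringExpChar F ^ j = 1) ∧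
      ((∀ a b : N ⧸ S, a * b = b * a) ∨
        (Absolute F ∧ FinRk (Subgroup.center (N ⧸ S)) ∧
          Ser (ringExpChar F) (Subgroup.center (N ⧸ S)) ⊤)) :=
  Pool.Agent.MP_6a4325_al.H84.ea_classification F G hG

end Pool.Agent.Results.MP_6a4325_al.Elementary
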